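import Mathlib

set_option autoImplicit false

namespace Pool.Agent.Results.MP_1e742c_lc.OneLargeType

open Finset Classical

/-- Utility of agent `i` in the assignment `v`: the number of types other than the type of `i`
that occur among the agents sitting on neighbours of the node of `i`. -/
noncomputable def util {V N : Type} {k : ℕ} (G : SimpleGraph V) (τ : N → Fin k) (v : N → V)
    (i : N) : ℕ :=
  Set.ncard {t : Fin k | t ≠ τ i ∧ ∃ j, τ j = t ∧ G.Adj (v i) (v j)}

/-- `v'` arises from `v` by an improving jump: some agent `i` moves to an empty node `w`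
and its utility becomes strictly larger. -/
def ImprovingJump {V N : Type} {k : ℕ} (G : SimpleGraph V) (τ : N → Fin k) (v v' : N → V) :
    Prop :=
  ∃ (i : N) (w : V), (∀ j, v j ≠ w) ∧ v' = Function.update v i w ∧
    util G τ v i < util G τ v' i

/-- own weighted degree -/
noncomputable def own {V N : Type} [Fintype N] (G : SimpleGraph V) (W : N → N → ℕ) (v : N → V)
    (i : N) : ℕ :=
  ∑ l, if G.Adj (v i) (v l) then W i l else 0

/-- total weight of the adjacent pairs -/
noncomputable def tot {V N : Type} [Fintype N] (G : SimpleGraph V) (W : N → N → ℕ)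
    (v : N → V) : ℕ := ∑ j, own G W v j

lemma tot_jump {V N : Type} [Fintype N] (G : SimpleGraph V) (W : N → N → ℕ)
    (hW : ∀ j l, W j l = W l j) (v : N → V) (i : N) (w : V) :
    tot G W (Function.update v i w) + 2 * own G W v i =
      tot G W v + 2 * own G W (Function.update v i w) i := by
  -- split off the row and the column of `i`
  have key : ∀ u : N → V, tot G W u =
      2 * own G W u i + ∑ j ∈ univ.erase i, ∑ l ∈ univ.erase i,
        (if G.Adj (u j) (u l) then W j l else 0) := by
    intro u
    have h1 : tot G W u = own G W u i + ∑ j ∈ univ.erase i, own G W u j := by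
      unfold tot
      rw [← Finset.add_sum_erase _ _ (Finset.mem_univ i)]
    have h2 : ∀ j, own G W u j = (if G.Adj (u j) (u i) then W j i else 0) +
        ∑ l ∈ univ.erase i, (if G.Adj (u j) (u l) then W j l else 0) := by
      intro j
      unfold own
      rw [← Finset.add_sum_erase _ _ (Finset.mem_univ i)]
    have h3 : own G W u i = ∑ j ∈ univ.erase i, (if G.Adj (u j) (u i) then W j i else 0) := by
      rw [h2 i]
      simp only [SimpleGraph.irrefl, if_false, zero_add]
      apply Finset.sum_congr rfl
      intro j _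
      rw [hW i j]
      simp only [G.adj_comm (u i) (u j)]
    rw [h1, Finset.sum_congr rfl (fun j _ => h2 j), Finset.sum_add_distrib, ← h3]
    ring
  have hrest : ∑ j ∈ univ.erase i, ∑ l ∈ univ.erase i,
        (if G.Adj (Function.update v i w j) (Function.update v i w l) then W j l else 0) =
      ∑ j ∈ univ.erase i, ∑ l ∈ univ.erase i, (if G.Adj (v j) (v l) then W j l else 0) := by
    apply Finset.sum_congr rfl
    intro j hj
    apply Finset.sum_congr rfl
    intro l hl
    rw [Function.update_of_ne (Finset.ne_of_mem_erase hj),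
      Function.update_of_ne (Finset.ne_of_mem_erase hl)]
  rw [key (Function.update v i w), key v, hrest]
  ring

/-- weight one on pairs of agents whose types are both not the large type -/
noncomputable def W1 {N : Type} {k : ℕ} (τ : N → Fin k) (t0 : Fin k) (j l : N) : ℕ :=
  if τ j ≠ t0 ∧ τ l ≠ t0 then 1 else 0

/-- weight one on pairs with exactly one agent of the large type -/
noncomputable def W2 {N : Type} {k : ℕ} (τ : N → Fin k) (t0 : Fin k) (j l : N) : ℕ :=
  if (τ j = t0 ∧ τ l ≠ t0) ∨ (τ j ≠ t0 ∧ τ l = t0) then 1 else 0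

lemma own_card {V N : Type} [Fintype N] (G : SimpleGraph V) (p : N → N → Prop) (v : N → V)
    (i : N) : own G (fun j l => if p j l then 1 else 0) v i =
      (univ.filter (fun l => G.Adj (v i) (v l) ∧ p i l)).card := by
  unfold own
  rw [Finset.card_filter]
  apply Finset.sum_congr rfl
  intro l _
  by_cases h1 : G.Adj (v i) (v l) <;> by_cases h2 : p i l <;> simp [h1, h2]

lemma own1 {V N : Type} [Fintype N] {k : ℕ} (G : SimpleGraph V) (τ : N → Fin k) (t0 : Fin k)
    (v : N → V) (i : N) : own G (W1 τ t0) v i =
      (univ.filter (fun l => G.Adj (v i) (v l) ∧ (τ i ≠ t0 ∧ τ l ≠ t0))).card := by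
  convert own_card G (fun j l => τ j ≠ t0 ∧ τ l ≠ t0) v i using 2
  · funext j l
    unfold W1
    by_cases h : τ j ≠ t0 ∧ τ l ≠ t0
    · rw [if_pos h, if_pos h]
    · rw [if_neg h, if_neg h]
  · ext l
    simp only [mem_filter]

lemma own2 {V N : Type} [Fintype N] {k : ℕ} (G : SimpleGraph V) (τ : N → Fin k) (t0 : Fin k)
    (v : N → V) (i : N) : own G (W2 τ t0) v i =
      (univ.filter (fun l => G.Adj (v i) (v l) ∧
        ((τ i = t0 ∧ τ l ≠ t0) ∨ (τ i ≠ t0 ∧ τ l = t0)))).card := by
  convert own_card G (fun j l => (τ j = t0 ∧ τ l ≠ t0) ∨ (τ j ≠ t0 ∧ τ l = t0)) v i using 2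
  · funext j l
    unfold W2
    by_cases h : (τ j = t0 ∧ τ l ≠ t0) ∨ (τ j ≠ t0 ∧ τ l = t0)
    · rw [if_pos h, if_pos h]
    · rw [if_neg h, if_neg h]
  · ext l
    simp only [mem_filter]

/-- utility of an agent of the large type -/
lemma util_large {V N : Type} [Fintype N] {k : ℕ} (G : SimpleGraph V) (τ : N → Fin k)
    (t0 : Fin k) (hs : ∀ i j, τ i = τ j → τ i ≠ t0 → i = j) (v : N → V) (i : N)
    (hi : τ i = t0) : util G τ v i = own G (W2 τ t0) v i := by
  rw [own2]
  unfold util
  have : {t : Fin k | t ≠ τ i ∧ ∃ j, τ j = t ∧ G.Adj (v i) (v j)} =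
      (((univ.filter (fun l => G.Adj (v i) (v l) ∧
        ((τ i = t0 ∧ τ l ≠ t0) ∨ (τ i ≠ t0 ∧ τ l = t0)))).image τ : Finset (Fin k)) :
          Set (Fin k)) := by
    ext t
    simp only [Set.mem_ofPred_eq, Finset.mem_coe, mem_filter, mem_univ, true_and, mem_image]
    constructor
    · rintro ⟨h1, j, rfl, h2⟩
      exact ⟨j, ⟨h2, Or.inl ⟨hi, hi ▸ h1⟩⟩, rfl⟩
    · rintro ⟨j, ⟨h2, h3⟩, rfl⟩
      rcases h3 with h3 | h3
      · exact ⟨by rw [hi]; exact h3.2, j, rfl, h2⟩
      · exact absurd hi h3.1
  rw [this, Set.ncard_coe_finset, Finset.card_image_of_injOn]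
  intro a ha b hb hab
  simp only [coe_filter, mem_univ, true_and, Set.mem_ofPred_eq] at ha
  apply hs a b hab
  rcases ha.2 with h | h
  · exact h.2
  · exact absurd hi h.1

/-- utility of an agent of a singleton type -/
lemma util_single {V N : Type} [Fintype N] {k : ℕ} (G : SimpleGraph V) (τ : N → Fin k)
    (t0 : Fin k) (hs : ∀ i j, τ i = τ j → τ i ≠ t0 → i = j) (v : N → V) (i : N)
    (hi : τ i ≠ t0) : util G τ v i = own G (W1 τ t0) v i +
      (if 0 < own G (W2 τ t0) v i then 1 else 0) := by
  rw [own1]
  have hpos : (0 < own G (W2 τ t0) v i) ↔ ∃ l, G.Adj (v i) (v l) ∧ τ l = t0 := by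
    rw [own2, Finset.card_pos]
    constructor
    · rintro ⟨l, hl⟩
      simp only [mem_filter, mem_univ, true_and] at hl
      rcases hl.2 with h | h
      · exact absurd h.1 hi
      · exact ⟨l, hl.1, h.2⟩
    · rintro ⟨l, h1, h2⟩
      exact ⟨l, by simp only [mem_filter, mem_univ, true_and]; exact ⟨h1, Or.inr ⟨hi, h2⟩⟩⟩
  have hsplit : {t : Fin k | t ≠ τ i ∧ ∃ j, τ j = t ∧ G.Adj (v i) (v j)} =
      ((((univ.filter (fun l => G.Adj (v i) (v l) ∧ (τ i ≠ t0 ∧ τ l ≠ t0))).image τ) ∪
      (if 0 < own G (W2 τ t0) v i then {t0} else ∅) : Finset (Fin k)) : Set (Fin k)) := by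
    ext t
    simp only [Set.mem_ofPred_eq, Finset.mem_coe, mem_filter, mem_univ, true_and, mem_image,
      mem_union]
    constructor
    · rintro ⟨h1, j, rfl, h2⟩
      by_cases hj : τ j = t0
      · right
        rw [if_pos (hpos.2 ⟨j, h2, hj⟩)]
        simp [hj]
      · left
        exact ⟨j, ⟨h2, hi, hj⟩, rfl⟩
    · rintro (⟨j, ⟨h2, _, h4⟩, rfl⟩ | h)
      · refine ⟨?_, j, rfl, h2⟩
        intro h
        have := hs j i h h4
        rw [this] at h2
        exact G.irrefl h2
      · by_cases hp : 0 < own G (W2 τ t0) v i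
        · rw [if_pos hp] at h
          simp only [mem_singleton] at h
          obtain ⟨l, hl1, hl2⟩ := hpos.1 hp
          refine ⟨by rw [h]; exact fun h' => hi h'.symm, l, by rw [h]; exact hl2, hl1⟩
        · rw [if_neg hp] at h
          simp at h
  unfold util
  rw [hsplit, Set.ncard_coe_finset, Finset.card_union_of_disjoint, Finset.card_image_of_injOn]
  · congr 1
    split_ifs <;> simp
  · intro a ha b hb hab
    simp only [coe_filter, mem_univ, true_and, Set.mem_ofPred_eq] at ha
    exact hs a b hab ha.2.2
  · split_ifs with hp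
    · rw [Finset.disjoint_singleton_right]
      intro h
      simp only [mem_filter, mem_univ, true_and, mem_image] at h
      obtain ⟨j, ⟨_, _, h4⟩, h5⟩ := h
      exact h4 h5
    · exact Finset.disjoint_empty_right _

/-- the lexicographic potential increases -/
lemma lex_up {V N : Type} [Fintype N] {k : ℕ} (G : SimpleGraph V) (τ : N → Fin k) (t0 : Fin k)
    (hs : ∀ i j, τ i = τ j → τ i ≠ t0 → i = j) (v v' : N → V)
    (h : ImprovingJump G τ v v') :
    tot G (W1 τ t0) v < tot G (W1 τ t0) v' ∨
      (tot G (W1 τ t0) v = tot G (W1 τ t0) v' ∧ tot G (W2 τ t0) v < tot G (W2 τ t0) v') := by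
  obtain ⟨i, w, _, rfl, hu⟩ := h
  have s1 : ∀ j l, W1 τ t0 j l = W1 τ t0 l j := by
    intro j l
    unfold W1
    simp only [and_comm]
  have s2 : ∀ j l, W2 τ t0 j l = W2 τ t0 l j := by
    intro j l
    unfold W2
    congr 1
    apply propext
    tauto
  have e1 := tot_jump G (W1 τ t0) s1 v i w
  have e2 := tot_jump G (W2 τ t0) s2 v i w
  by_cases hi : τ i = t0
  · rw [util_large G τ t0 hs v i hi, util_large G τ t0 hs _ i hi] at hu
    have z : ∀ u : N → V, own G (W1 τ t0) u i = 0 := by
      intro u
      rw [own1, Finset.card_eq_zero]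
      apply Finset.filter_eq_empty_iff.2
      intro l _ h
      exact h.2.1 hi
    rw [z, z] at e1
    right
    omega
  · rw [util_single G τ t0 hs v i hi, util_single G τ t0 hs _ i hi] at hu
    by_cases h1 : own G (W1 τ t0) v i < own G (W1 τ t0) (Function.update v i w) i
    · left
      omega
    · have a1 : own G (W1 τ t0) v i = own G (W1 τ t0) (Function.update v i w) i ∧
          own G (W2 τ t0) v i = 0 ∧ 0 < own G (W2 τ t0) (Function.update v i w) i := by
        split_ifs at hu <;> omega
      right
      omega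

/-- No infinite sequence of improving jumps, if all types but one have one agent. -/
theorem no_infinite {V N : Type} [Fintype V] [Fintype N] {k : ℕ} (G : SimpleGraph V)
    (τ : N → Fin k) (t0 : Fin k) (hs : ∀ i j, τ i = τ j → τ i ≠ t0 → i = j) :
    ¬ ∃ v : ℕ → N → V, ∀ n, ImprovingJump G τ (v n) (v (n + 1)) := by
  rintro ⟨v, hv⟩
  have hfin : Finite (N → V) := inferInstance
  -- a repetition gives a contradiction
  obtain ⟨a, b, hab, heq⟩ := Finite.exists_ne_map_eq_of_infinite v
  have key : ∀ m n, m < n →
      tot G (W1 τ t0) (v m) < tot G (W1 τ t0) (v n) ∨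
      (tot G (W1 τ t0) (v m) = tot G (W1 τ t0) (v n) ∧
        tot G (W2 τ t0) (v m) < tot G (W2 τ t0) (v n)) := by
    intro m n hmn
    induction n with
    | zero => omega
    | succ n ih =>
      have s := lex_up G τ t0 hs _ _ (hv n)
      rcases Nat.lt_succ_iff_lt_or_eq.1 hmn with h | h
      · have := ih h
        omega
      · rw [h]
        exact s
  rcases lt_or_gt_of_ne hab with h | h
  · have := key a b h
    rw [heq] at this
    omega
  · have := key b a h
    rw [heq] at this
    omega

/-- If all types but (at most) one consist of a single agent, then every variety-seeking jump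
game has an equilibrium, and moreover every sequence of improving jumps is finite. -/
theorem result : ∀ (V N : Type) [Fintype V] [Fintype N] (G : SimpleGraph V) (k : ℕ)
    (τ : N → Fin k) (t0 : Fin k), Fintype.card N < Fintype.card V →
    (∀ i j, τ i = τ j → τ i ≠ t0 → i = j) →
    (∃ v : N → V, Function.Injective v ∧ ∀ v' : N → V, ¬ ImprovingJump G τ v v') ∧
    ¬ ∃ v : ℕ → N → V, Function.Injective (v 0) ∧ ∀ n, ImprovingJump G τ (v n) (v (n + 1)) := by
  intro V N _ _ G k τ t0 hcard hs
  refine ⟨?_, ?_⟩
  · by_contra hno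
    push Not at hno
    have hstep : ∀ v : {v : N → V // Function.Injective v},
        ∃ v' : {v : N → V // Function.Injective v}, ImprovingJump G τ v.1 v'.1 := by
      rintro ⟨v, hv⟩
      obtain ⟨v', hv'⟩ := hno v hv
      refine ⟨⟨v', ?_⟩, hv'⟩
      obtain ⟨i, w, hw, rfl, _⟩ := hv'
      intro a b hab
      by_cases ha : a = i <;> by_cases hb : b = i
      · rw [ha, hb]
      · subst ha
        rw [Function.update_self, Function.update_of_ne hb] at hab
        exact absurd hab.symm (hw b)
      · subst hb
        rw [Function.update_self, Function.update_of_ne ha] at hab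
        exact absurd hab (hw a)
      · rw [Function.update_of_ne ha, Function.update_of_ne hb] at hab
        exact hv hab
    choose f hf using hstep
    obtain ⟨e⟩ : Nonempty (N ↪ V) := Function.Embedding.nonempty_of_card_le hcard.le
    let s : ℕ → {v : N → V // Function.Injective v} := fun n => f^[n] ⟨e, e.injective⟩
    apply no_infinite G τ t0 hs
    refine ⟨fun n => (s n).1, fun n => ?_⟩
    have : s (n + 1) = f (s n) := by
      simp only [s]
      rw [Function.iterate_succ_apply']
    change ImprovingJump G τ (s n).1 (s (n + 1)).1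
    rw [this]
    exact hf (s n)
  · rintro ⟨v, _, hv⟩
    exact no_infinite G τ t0 hs ⟨v, hv⟩

end Pool.Agent.Results.MP_1e742c_lc.OneLargeType
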