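import Mathlib
import Pool.Agent.Results.MP_1e742c_lc.OneLargeType

set_option autoImplicit false

namespace Pool.Agent.Results.MP_1e742c_lc.SmallType

open Finset Classical
open Pool.Agent.Results.MP_1e742c_lc.OneLargeType (util ImprovingJump own tot tot_jump own_card)

/-- sum of the utilities of the agents of type `s` -/
noncomputable def UC {V N : Type} [Fintype N] (G : SimpleGraph V) (τ : N → Fin 3) (s : Fin 3)
    (v : N → V) : ℕ :=
  ∑ j ∈ univ.filter (fun j => τ j = s), util G τ v j

/-- number of agents of the other two types that see an agent of type `s` -/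
noncomputable def SC {V N : Type} [Fintype N] (G : SimpleGraph V) (τ : N → Fin 3) (s : Fin 3)
    (v : N → V) : ℕ :=
  (univ.filter (fun j => τ j ≠ s ∧ ∃ l, τ l = s ∧ G.Adj (v j) (v l))).card

/-- weight one on pairs of agents of the two other types, of different types -/
noncomputable def W3 {N : Type} (τ : N → Fin 3) (s : Fin 3) (j l : N) : ℕ :=
  if (τ j ≠ s ∧ τ l ≠ s) ∧ τ j ≠ τ l then 1 else 0

lemma W3_symm {N : Type} (τ : N → Fin 3) (s : Fin 3) (j l : N) : W3 τ s j l = W3 τ s l j := by
  unfold W3
  congr 1
  apply propext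
  constructor
  · rintro ⟨⟨h1, h2⟩, h3⟩
    exact ⟨⟨h2, h1⟩, h3.symm⟩
  · rintro ⟨⟨h1, h2⟩, h3⟩
    exact ⟨⟨h2, h1⟩, h3.symm⟩

lemma ownW3 {V N : Type} [Fintype N] (G : SimpleGraph V) (τ : N → Fin 3) (s : Fin 3) (v : N → V)
    (i : N) (hi : τ i ≠ s) : 0 < own G (W3 τ s) v i ↔
      ∃ l, G.Adj (v i) (v l) ∧ τ l ≠ s ∧ τ i ≠ τ l := by
  have h : own G (W3 τ s) v i =
      (univ.filter (fun l => G.Adj (v i) (v l) ∧ ((τ i ≠ s ∧ τ l ≠ s) ∧ τ i ≠ τ l))).card := by
    convert own_card G (fun j l => (τ j ≠ s ∧ τ l ≠ s) ∧ τ j ≠ τ l) v i using 2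
    · funext j l
      unfold W3
      by_cases h : (τ j ≠ s ∧ τ l ≠ s) ∧ τ j ≠ τ l
      · rw [if_pos h, if_pos h]
      · rw [if_neg h, if_neg h]
    · ext l
      simp only [mem_filter]
  rw [h, Finset.card_pos]
  constructor
  · rintro ⟨l, hl⟩
    simp only [mem_filter, mem_univ, true_and] at hl
    exact ⟨l, hl.1, hl.2.1.2, hl.2.2⟩
  · rintro ⟨l, h1, h2, h3⟩
    exact ⟨l, by simp only [mem_filter, mem_univ, true_and]; exact ⟨h1, ⟨hi, h2⟩, h3⟩⟩

/-- the third type -/
lemma third (x y : Fin 3) (h : x ≠ y) : ∃ z : Fin 3, z ≠ x ∧ z ≠ y ∧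
    ∀ t, t ≠ x → t = y ∨ t = z := by
  revert x y
  decide

/-- utility of an agent of one of the two other types -/
lemma util_non {V N : Type} [Fintype N] (G : SimpleGraph V) (τ : N → Fin 3) (s : Fin 3)
    (v : N → V) (i : N) (hi : τ i ≠ s) :
    util G τ v i = (if ∃ l, τ l = s ∧ G.Adj (v i) (v l) then 1 else 0) +
      (if 0 < own G (W3 τ s) v i then 1 else 0) := by
  obtain ⟨z, hz1, hz2, hz3⟩ := third (τ i) s hi
  have hset : {t : Fin 3 | t ≠ τ i ∧ ∃ j, τ j = t ∧ G.Adj (v i) (v j)} =
      (((if ∃ l, τ l = s ∧ G.Adj (v i) (v l) then {s} else ∅) ∪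
        (if 0 < own G (W3 τ s) v i then {z} else ∅) : Finset (Fin 3)) : Set (Fin 3)) := by
    ext t
    simp only [Set.mem_ofPred_eq, Finset.mem_coe, mem_union]
    constructor
    · rintro ⟨h1, j, rfl, h2⟩
      rcases hz3 _ h1 with h | h
      · left
        rw [if_pos ⟨j, h, h2⟩]
        simp [h]
      · right
        rw [if_pos ((ownW3 G τ s v i hi).2 ⟨j, h2, by rw [h]; exact hz2, fun h' => h1 h'.symm⟩)]
        simp [h]
    · rintro (h | h)
      · by_cases hp : ∃ l, τ l = s ∧ G.Adj (v i) (v l)
        · rw [if_pos hp] at h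
          simp only [mem_singleton] at h
          obtain ⟨l, h1, h2⟩ := hp
          exact ⟨by rw [h]; exact fun h' => hi h'.symm, l, by rw [h1, h], h2⟩
        · rw [if_neg hp] at h
          simp at h
      · by_cases hp : 0 < own G (W3 τ s) v i
        · rw [if_pos hp] at h
          simp only [mem_singleton] at h
          obtain ⟨l, h1, h2, h3⟩ := (ownW3 G τ s v i hi).1 hp
          refine ⟨by rw [h]; exact hz1, l, ?_, h1⟩
          rcases hz3 (τ l) (fun h' => h3 h'.symm) with h4 | h4
          · exact absurd h4 h2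
          · rw [h4, h]
        · rw [if_neg hp] at h
          simp at h
  unfold util
  rw [hset, Set.ncard_coe_finset, Finset.card_union_of_disjoint]
  · congr 1
    · split_ifs <;> simp
    · split_ifs <;> simp
  · split_ifs <;> simp [hz2.symm]

/-- the utility of `j` does not drop when `i` moves to `w`, if `j` does not need `i` or `j` is
adjacent to `w` -/
lemma util_mono {V N : Type} [Fintype N] (G : SimpleGraph V) (τ : N → Fin 3)
    (v : N → V) (i j : N) (hij : j ≠ i) (w : V)
    (h : τ i = τ j ∨ (G.Adj (v j) (v i) → G.Adj (v j) w)) :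
    util G τ v j ≤ util G τ (Function.update v i w) j := by
  unfold util
  apply Set.ncard_le_ncard
  · rintro t ⟨h1, l, rfl, h2⟩
    refine ⟨h1, l, rfl, ?_⟩
    rw [Function.update_of_ne hij]
    by_cases hl : l = i
    · subst hl
      rw [Function.update_self]
      rcases h with h | h
      · exact absurd h h1
      · exact h h2
    · rw [Function.update_of_ne hl]
      exact h2
  · exact Set.toFinite _

lemma UC_lt {V N : Type} [Fintype N] (G : SimpleGraph V) (τ : N → Fin 3) (s : Fin 3)
    (v : N → V) (i : N) (hi : τ i = s) (w : V)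
    (hu : util G τ v i < util G τ (Function.update v i w) i) :
    UC G τ s v < UC G τ s (Function.update v i w) := by
  unfold UC
  apply Finset.sum_lt_sum
  · intro j hj
    simp only [mem_filter, mem_univ, true_and] at hj
    by_cases hij : j = i
    · rw [hij]
      exact hu.le
    · exact util_mono G τ v i j hij w (Or.inl (by rw [hi, hj]))
  · exact ⟨i, by simp [hi], hu⟩

lemma UC_le {V N : Type} [Fintype N] (G : SimpleGraph V) (τ : N → Fin 3) (s : Fin 3)
    (v : N → V) (i : N) (hi : τ i ≠ s) (w : V)
    (h : ∀ j, τ j = s → G.Adj (v j) (v i) → G.Adj (v j) w) :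
    UC G τ s v ≤ UC G τ s (Function.update v i w) := by
  unfold UC
  apply Finset.sum_le_sum
  intro j hj
  simp only [mem_filter, mem_univ, true_and] at hj
  have hij : j ≠ i := by
    rintro rfl
    exact hi hj
  exact util_mono G τ v i j hij w (Or.inr (h j hj))

/-- the agents other than `i` see type `s` as before, if `i` is not of type `s` -/
lemma see_iff {V N : Type} [Fintype N] (G : SimpleGraph V) (τ : N → Fin 3) (s : Fin 3)
    (v : N → V) (i : N) (hi : τ i ≠ s) (w : V) (j : N) (hij : j ≠ i) :
    (∃ l, τ l = s ∧ G.Adj (Function.update v i w j) (Function.update v i w l)) ↔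
      ∃ l, τ l = s ∧ G.Adj (v j) (v l) := by
  constructor
  · rintro ⟨l, h1, h2⟩
    refine ⟨l, h1, ?_⟩
    have hl : l ≠ i := by
      rintro rfl
      exact hi h1
    rw [Function.update_of_ne hij, Function.update_of_ne hl] at h2
    exact h2
  · rintro ⟨l, h1, h2⟩
    refine ⟨l, h1, ?_⟩
    have hl : l ≠ i := by
      rintro rfl
      exact hi h1
    rw [Function.update_of_ne hij, Function.update_of_ne hl]
    exact h2

lemma see_self {V N : Type} [Fintype N] (G : SimpleGraph V) (τ : N → Fin 3) (s : Fin 3)
    (v : N → V) (i : N) (hi : τ i ≠ s) (w : V) :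
    (∃ l, τ l = s ∧ G.Adj (Function.update v i w i) (Function.update v i w l)) ↔
      ∃ l, τ l = s ∧ G.Adj w (v l) := by
  constructor
  · rintro ⟨l, h1, h2⟩
    refine ⟨l, h1, ?_⟩
    have hl : l ≠ i := by
      rintro rfl
      exact hi h1
    rw [Function.update_self, Function.update_of_ne hl] at h2
    exact h2
  · rintro ⟨l, h1, h2⟩
    refine ⟨l, h1, ?_⟩
    have hl : l ≠ i := by
      rintro rfl
      exact hi h1
    rw [Function.update_self, Function.update_of_ne hl]
    exact h2

lemma SC_le {V N : Type} [Fintype N] (G : SimpleGraph V) (τ : N → Fin 3) (s : Fin 3)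
    (v : N → V) (i : N) (hi : τ i ≠ s) (w : V)
    (h : (∃ l, τ l = s ∧ G.Adj (v i) (v l)) → ∃ l, τ l = s ∧ G.Adj w (v l)) :
    SC G τ s v ≤ SC G τ s (Function.update v i w) := by
  unfold SC
  apply Finset.card_le_card
  intro j hj
  simp only [mem_filter, mem_univ, true_and] at hj ⊢
  refine ⟨hj.1, ?_⟩
  by_cases hij : j = i
  · subst hij
    exact (see_self G τ s v j hi w).2 (h hj.2)
  · exact (see_iff G τ s v i hi w j hij).2 hj.2

lemma SC_lt {V N : Type} [Fintype N] (G : SimpleGraph V) (τ : N → Fin 3) (s : Fin 3)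
    (v : N → V) (i : N) (hi : τ i ≠ s) (w : V)
    (h0 : ¬ ∃ l, τ l = s ∧ G.Adj (v i) (v l)) (h : ∃ l, τ l = s ∧ G.Adj w (v l)) :
    SC G τ s v < SC G τ s (Function.update v i w) := by
  unfold SC
  apply Finset.card_lt_card
  rw [Finset.ssubset_iff_of_subset]
  · refine ⟨i, ?_, ?_⟩
    · simp only [mem_filter, mem_univ, true_and]
      exact ⟨hi, (see_self G τ s v i hi w).2 h⟩
    · simp only [mem_filter, mem_univ, true_and]
      exact fun h' => h0 h'.2
  · intro j hj
    simp only [mem_filter, mem_univ, true_and] at hj ⊢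
    refine ⟨hj.1, ?_⟩
    by_cases hij : j = i
    · subst hij
      exact (see_self G τ s v j hi w).2 h
    · exact (see_iff G τ s v i hi w j hij).2 hj.2

lemma inj_update {V N : Type} (v : N → V) (hv : Function.Injective v) (i : N) (w : V)
    (hw : ∀ j, v j ≠ w) : Function.Injective (Function.update v i w) := by
  intro a b hab
  by_cases ha : a = i <;> by_cases hb : b = i
  · rw [ha, hb]
  · subst ha
    rw [Function.update_self, Function.update_of_ne hb] at hab
    exact absurd hab.symm (hw b)
  · subst hb
    rw [Function.update_self, Function.update_of_ne ha] at hab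
    exact absurd hab (hw a)
  · rw [Function.update_of_ne ha, Function.update_of_ne hb] at hab
    exact hv hab

/-- A global maximum of (UC, SC, tot W3) in the lexicographic order. -/
lemma exists_max {V N : Type} [Fintype V] [Fintype N] (G : SimpleGraph V)
    (τ : N → Fin 3) (s : Fin 3) (hcard : Fintype.card N < Fintype.card V) :
    ∃ v : N → V, Function.Injective v ∧ ∀ v' : N → V, Function.Injective v' →
      ¬ (UC G τ s v < UC G τ s v' ∨ (UC G τ s v = UC G τ s v' ∧
        (SC G τ s v < SC G τ s v' ∨ (SC G τ s v = SC G τ s v' ∧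
          tot G (W3 τ s) v < tot G (W3 τ s) v')))) := by
  obtain ⟨e⟩ : Nonempty (N ↪ V) := Function.Embedding.nonempty_of_card_le hcard.le
  have : Nonempty {v : N → V // Function.Injective v} := ⟨⟨e, e.injective⟩⟩
  obtain ⟨v, hv⟩ := Finite.exists_max (fun v : {v : N → V // Function.Injective v} =>
    (toLex (UC G τ s v.1, toLex (SC G τ s v.1, tot G (W3 τ s) v.1)) : ℕ ×ₗ (ℕ ×ₗ ℕ)))
  refine ⟨v.1, v.2, fun v' hv' hlt => ?_⟩
  have h1 := hv ⟨v', hv'⟩
  apply absurd h1
  rw [not_le]
  rw [Prod.Lex.toLex_lt_toLex, Prod.Lex.toLex_lt_toLex]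
  exact hlt

/-- Main lemma. -/
lemma main {V N : Type} [Fintype V] [Fintype N] (G : SimpleGraph V)
    (τ : N → Fin 3) (s : Fin 3) (hcard : Fintype.card N < Fintype.card V)
    (hY : ∀ Y : Finset V, Y.card = (univ.filter (fun j => τ j = s)).card →
      (univ.filter (fun x => x ∉ Y ∧ ∃ y ∈ Y, G.Adj y x)).card ≤
        (univ.filter (fun j => τ j ≠ s)).card ∨
      ∀ w b, w ∉ Y → b ∉ Y → (∃ y ∈ Y, G.Adj y w) → (∃ y ∈ Y, G.Adj y b) → G.Adj w b →
        ∀ y ∈ Y, G.Adj y w) :
    ∃ v : N → V, Function.Injective v ∧ ∀ v' : N → V, ¬ ImprovingJump G τ v v' := by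
  obtain ⟨v, hv, hmax⟩ := exists_max G τ s hcard
  refine ⟨v, hv, ?_⟩
  rintro v' ⟨i, w, hw, rfl, hu⟩
  have hm := hmax _ (inj_update v hv i w hw)
  by_cases hi : τ i = s
  · exact hm (Or.inl (UC_lt G τ s v i hi w hu))
  · -- the key inequality for the edges between the two other types
    have e2 := tot_jump G (W3 τ s) (W3_symm τ s) v i w
    have hu' := hu
    have hs := see_self G τ s v i hi w
    rw [util_non G τ s v i hi, util_non G τ s _ i hi] at hu'
    by_cases h0 : ∃ l, τ l = s ∧ G.Adj (v i) (v l)
    · -- `i` sees type `s`, so `w` sees type `s` and the third type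
      rw [if_pos h0] at hu'
      have hws : ∃ l, τ l = s ∧ G.Adj w (v l) := by
        by_contra hcon
        rw [if_neg (fun h => hcon (hs.1 h))] at hu'
        split_ifs at hu' <;> omega
      rw [if_pos (hs.2 hws)] at hu'
      have hpos : 0 < own G (W3 τ s) (Function.update v i w) i := by
        by_contra hcon
        rw [if_neg hcon] at hu'
        omega
      have hzero : own G (W3 τ s) v i = 0 := by
        by_contra hcon
        rw [if_pos (Nat.pos_of_ne_zero hcon), if_pos hpos] at hu'
        omega
      -- all agents of the other types see type `s`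
      have hall : ∀ j, τ j ≠ s → ∃ l, τ l = s ∧ G.Adj (v j) (v l) := by
        intro j hj
        by_contra hcon
        have hmj := hmax _ (inj_update v hv j w hw)
        apply hmj
        have u1 : UC G τ s v ≤ UC G τ s (Function.update v j w) := by
          apply UC_le G τ s v j hj w
          intro l hl hadj
          exact absurd ⟨l, hl, hadj.symm⟩ hcon
        have u2 : SC G τ s v < SC G τ s (Function.update v j w) := SC_lt G τ s v j hj w hcon hws
        rcases Nat.lt_or_eq_of_le u1 with h | h
        · exact Or.inl h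
        · exact Or.inr ⟨h, Or.inl u2⟩
      set Y : Finset V := (univ.filter (fun j => τ j = s)).image v with hYdef
      have hYcard : Y.card = (univ.filter (fun j => τ j = s)).card :=
        Finset.card_image_of_injective _ hv
      have hmemY : ∀ x, x ∈ Y ↔ ∃ l, τ l = s ∧ v l = x := by
        intro x
        simp [hYdef]
      have hnotY : ∀ j, τ j ≠ s → v j ∉ Y := by
        intro j hj hmem
        obtain ⟨l, h1, h2⟩ := (hmemY _).1 hmem
        rw [hv h2] at h1
        exact hj h1
      have hwY : w ∉ Y := by
        intro hmem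
        obtain ⟨l, h1, h2⟩ := (hmemY _).1 hmem
        exact hw l h2
      rcases hY Y hYcard with h | h
      · -- too many outside neighbours
        have hsub : insert w ((univ.filter (fun j => τ j ≠ s)).image v) ⊆
            univ.filter (fun x => x ∉ Y ∧ ∃ y ∈ Y, G.Adj y x) := by
          intro x hx
          rw [mem_insert] at hx
          simp only [mem_filter, mem_univ, true_and]
          rcases hx with rfl | hx
          · refine ⟨hwY, ?_⟩
            obtain ⟨l, h1, h2⟩ := hws
            exact ⟨v l, (hmemY _).2 ⟨l, h1, rfl⟩, h2.symm⟩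
          · simp only [mem_image, mem_filter, mem_univ, true_and] at hx
            obtain ⟨j, hj, rfl⟩ := hx
            refine ⟨hnotY j hj, ?_⟩
            obtain ⟨l, h1, h2⟩ := hall j hj
            exact ⟨v l, (hmemY _).2 ⟨l, h1, rfl⟩, h2.symm⟩
        have hc := Finset.card_le_card hsub
        rw [Finset.card_insert_of_notMem, Finset.card_image_of_injective _ hv] at hc
        · omega
        · simp only [mem_image, mem_filter, mem_univ, true_and]
          rintro ⟨j, _, hj⟩
          exact hw j hj
      · -- `w` is adjacent to all agents of type `s`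
        have hpos' := (ownW3 G τ s (Function.update v i w) i hi).1 hpos
        obtain ⟨l, h1, h2, h3⟩ := hpos'
        have hli : l ≠ i := by
          rintro rfl
          exact h3 rfl
        rw [Function.update_self, Function.update_of_ne hli] at h1
        have hcompl := h w (v l) hwY (hnotY l h2)
          (by obtain ⟨m, m1, m2⟩ := hws
              exact ⟨v m, (hmemY _).2 ⟨m, m1, rfl⟩, m2.symm⟩)
          (by obtain ⟨m, m1, m2⟩ := hall l h2
              exact ⟨v m, (hmemY _).2 ⟨m, m1, rfl⟩, m2.symm⟩) h1
        apply hm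
        have u1 : UC G τ s v ≤ UC G τ s (Function.update v i w) := by
          apply UC_le G τ s v i hi w
          intro m hm' _
          exact hcompl (v m) ((hmemY _).2 ⟨m, hm', rfl⟩)
        have u2 : SC G τ s v ≤ SC G τ s (Function.update v i w) :=
          SC_le G τ s v i hi w (fun _ => hws)
        rcases Nat.lt_or_eq_of_le u1 with h' | h'
        · exact Or.inl h'
        · refine Or.inr ⟨h', ?_⟩
          rcases Nat.lt_or_eq_of_le u2 with h'' | h''
          · exact Or.inl h''
          · exact Or.inr ⟨h'', by omega⟩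
    · -- `i` does not see type `s`
      rw [if_neg h0] at hu'
      have u1 : UC G τ s v ≤ UC G τ s (Function.update v i w) := by
        apply UC_le G τ s v i hi w
        intro l hl hadj
        exact absurd ⟨l, hl, hadj.symm⟩ h0
      by_cases hws : ∃ l, τ l = s ∧ G.Adj w (v l)
      · apply hm
        have u2 := SC_lt G τ s v i hi w h0 hws
        rcases Nat.lt_or_eq_of_le u1 with h | h
        · exact Or.inl h
        · exact Or.inr ⟨h, Or.inl u2⟩
      · rw [if_neg (fun h => hws (hs.1 h))] at hu'
        have hpos : 0 < own G (W3 τ s) (Function.update v i w) i := by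
          by_contra hcon
          rw [if_neg hcon] at hu'
          split_ifs at hu' <;> omega
        have hzero : own G (W3 τ s) v i = 0 := by
          by_contra hcon
          rw [if_pos (Nat.pos_of_ne_zero hcon), if_pos hpos] at hu'
          omega
        apply hm
        have u2 : SC G τ s v ≤ SC G τ s (Function.update v i w) :=
          SC_le G τ s v i hi w (fun h => absurd h h0)
        rcases Nat.lt_or_eq_of_le u1 with h' | h'
        · exact Or.inl h'
        · refine Or.inr ⟨h', ?_⟩
          rcases Nat.lt_or_eq_of_le u2 with h'' | h''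
          · exact Or.inl h''
          · exact Or.inr ⟨h'', by omega⟩

/-- Three types; `s` is one of them.

(1) If for every set `Y` of as many nodes as there are agents of type `s`, either the number of
nodes outside `Y` with a neighbour in `Y` is at most the number of the other agents, or every such
node which is adjacent to another such node is adjacent to all nodes of `Y`, then the
variety-seeking jump game has an equilibrium.

(2) In particular there is an equilibrium if `Δ` bounds all degrees and the number of agents of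
type `s` times `Δ + 1` is at most the number of all agents. -/
theorem result : ∀ (V N : Type) [Fintype V] [Fintype N] (G : SimpleGraph V)
    (τ : N → Fin 3) (s : Fin 3), Fintype.card N < Fintype.card V →
    ((∀ Y : Finset V, Y.card = (univ.filter (fun j => τ j = s)).card →
      (univ.filter (fun x => x ∉ Y ∧ ∃ y ∈ Y, G.Adj y x)).card ≤
        (univ.filter (fun j => τ j ≠ s)).card ∨
      ∀ w b, w ∉ Y → b ∉ Y → (∃ y ∈ Y, G.Adj y w) → (∃ y ∈ Y, G.Adj y b) → G.Adj w b →
        ∀ y ∈ Y, G.Adj y w) →
      ∃ v : N → V, Function.Injective v ∧ ∀ v' : N → V, ¬ ImprovingJump G τ v v') ∧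
    (∀ Δ : ℕ, (∀ x : V, (univ.filter (fun y => G.Adj x y)).card ≤ Δ) →
      (univ.filter (fun j => τ j = s)).card * (Δ + 1) ≤ Fintype.card N →
      ∃ v : N → V, Function.Injective v ∧ ∀ v' : N → V, ¬ ImprovingJump G τ v v') := by
  intro V N _ _ G τ s hcard
  refine ⟨fun hY => main G τ s hcard hY, fun Δ hdeg hn => main G τ s hcard ?_⟩
  intro Y hYc
  left
  have h1 : (univ.filter (fun x => x ∉ Y ∧ ∃ y ∈ Y, G.Adj y x)) ⊆
      Y.biUnion (fun y => univ.filter (fun x => G.Adj y x)) := by
    intro x hx
    simp only [mem_filter, mem_univ, true_and] at hx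
    obtain ⟨_, y, hy, hadj⟩ := hx
    simp only [mem_biUnion, mem_filter, mem_univ, true_and]
    exact ⟨y, hy, hadj⟩
  have h2 := (Finset.card_le_card h1).trans Finset.card_biUnion_le
  have h3 : ∑ y ∈ Y, (univ.filter (fun x => G.Adj y x)).card ≤ Y.card * Δ := by
    have := Finset.sum_le_card_nsmul Y (fun y => (univ.filter (fun x => G.Adj y x)).card) Δ
      (fun y _ => hdeg y)
    simpa using this
  have h4 : (univ.filter (fun j => τ j = s)).card + (univ.filter (fun j => τ j ≠ s)).card =
      Fintype.card N := by
    rw [Finset.card_filter_add_card_filter_not]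
    rfl
  rw [hYc] at h3
  have h5 : (univ.filter (fun j => τ j = s)).card * (Δ + 1) =
      (univ.filter (fun j => τ j = s)).card * Δ + (univ.filter (fun j => τ j = s)).card := by ring
  omega

end Pool.Agent.Results.MP_1e742c_lc.SmallType
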