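import Mathlib
import Pool.Agent.Results.MP_1e742c_lc.OneLargeType

set_option autoImplicit false

namespace Pool.Agent.Results.MP_1e742c_lc.ThreeTypes

open Finset Classical
open Pool.Agent.Results.MP_1e742c_lc.OneLargeType (util ImprovingJump own tot tot_jump own_card)

/-- weight one on pairs which contain the single agent exactly once -/
noncomputable def U2 {N : Type} (c : N) (j l : N) : ℕ :=
  if (j = c ∧ l ≠ c) ∨ (j ≠ c ∧ l = c) then 1 else 0

/-- weight one on pairs of agents of the two large types, of different types -/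
noncomputable def U3 {N : Type} (τ : N → Fin 3) (c : N) (j l : N) : ℕ :=
  if (j ≠ c ∧ l ≠ c) ∧ τ j ≠ τ l then 1 else 0

lemma ownU2 {V N : Type} [Fintype N] (G : SimpleGraph V) (c : N) (v : N → V) (i : N)
    (hi : i ≠ c) : own G (U2 c) v i = if G.Adj (v i) (v c) then 1 else 0 := by
  unfold own
  rw [Finset.sum_eq_single c]
  · unfold U2
    rw [if_pos (Or.inr ⟨hi, rfl⟩)]
  · intro l _ hl
    have h0 : U2 c i l = 0 := by
      unfold U2
      rw [if_neg]
      rintro (h | h)
      · exact hi h.1
      · exact hl h.2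
    rw [h0]
    simp
  · intro h
    exact absurd (mem_univ c) h

lemma ownU3 {V N : Type} [Fintype N] (G : SimpleGraph V) (τ : N → Fin 3) (c : N) (v : N → V)
    (i : N) (hi : i ≠ c) : 0 < own G (U3 τ c) v i ↔
      ∃ l, G.Adj (v i) (v l) ∧ l ≠ c ∧ τ i ≠ τ l := by
  have h : own G (U3 τ c) v i =
      (univ.filter (fun l => G.Adj (v i) (v l) ∧ ((i ≠ c ∧ l ≠ c) ∧ τ i ≠ τ l))).card := by
    convert own_card G (fun j l => (j ≠ c ∧ l ≠ c) ∧ τ j ≠ τ l) v i using 2
    · funext j l
      unfold U3
      by_cases h : (j ≠ c ∧ l ≠ c) ∧ τ j ≠ τ l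
      · rw [if_pos h, if_pos h]
      · rw [if_neg h, if_neg h]
    · ext l
      simp only [mem_filter]
  rw [h, Finset.card_pos]
  constructor
  · rintro ⟨l, hl⟩
    simp only [mem_filter, mem_univ, true_and] at hl
    exact ⟨l, hl.1, hl.2.1.2, hl.2.2⟩
  · rintro ⟨l, h1, h2, h3⟩
    exact ⟨l, by simp only [mem_filter, mem_univ, true_and]; exact ⟨h1, ⟨hi, h2⟩, h3⟩⟩

/-- the third type -/
lemma third (x y : Fin 3) (h : x ≠ y) : ∃ z : Fin 3, z ≠ x ∧ z ≠ y ∧
    ∀ t, t ≠ x → t = y ∨ t = z := by
  revert x y
  decide

lemma util_ne {V N : Type} [Fintype N] (G : SimpleGraph V) (τ : N → Fin 3) (c : N)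
    (hc : ∀ j, τ j = τ c → j = c) (v : N → V) (i : N) (hi : i ≠ c) :
    util G τ v i = own G (U2 c) v i + (if 0 < own G (U3 τ c) v i then 1 else 0) := by
  have hic : τ i ≠ τ c := fun h => hi (hc i h)
  obtain ⟨z, hz1, hz2, hz3⟩ := third (τ i) (τ c) hic
  rw [ownU2 G c v i hi]
  have hset : {t : Fin 3 | t ≠ τ i ∧ ∃ j, τ j = t ∧ G.Adj (v i) (v j)} =
      (((if G.Adj (v i) (v c) then {τ c} else ∅) ∪
        (if 0 < own G (U3 τ c) v i then {z} else ∅) : Finset (Fin 3)) : Set (Fin 3)) := by
    ext t
    simp only [Set.mem_ofPred_eq, Finset.mem_coe, mem_union]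
    constructor
    · rintro ⟨h1, j, rfl, h2⟩
      rcases hz3 _ h1 with h | h
      · left
        rw [hc j h] at h2 ⊢
        rw [if_pos h2]
        simp
      · right
        have hjc : j ≠ c := by
          rintro rfl
          exact hz2 h.symm
        rw [if_pos ((ownU3 G τ c v i hi).2 ⟨j, h2, hjc, fun h' => h1 h'.symm⟩)]
        simp [h]
    · rintro (h | h)
      · by_cases hp : G.Adj (v i) (v c)
        · rw [if_pos hp] at h
          simp only [mem_singleton] at h
          exact ⟨by rw [h]; exact fun h' => hic h'.symm, c, h.symm, hp⟩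
        · rw [if_neg hp] at h
          simp at h
      · by_cases hp : 0 < own G (U3 τ c) v i
        · rw [if_pos hp] at h
          simp only [mem_singleton] at h
          obtain ⟨l, h1, h2, h3⟩ := (ownU3 G τ c v i hi).1 hp
          refine ⟨by rw [h]; exact hz1, l, ?_, h1⟩
          rcases hz3 (τ l) (fun h' => h3 h'.symm) with h4 | h4
          · exact absurd (hc l h4) h2
          · rw [h4, h]
        · rw [if_neg hp] at h
          simp at h
  unfold util
  rw [hset, Set.ncard_coe_finset, Finset.card_union_of_disjoint]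
  · congr 1
    · split_ifs <;> simp
    · split_ifs <;> simp
  · split_ifs <;> simp [hz2.symm]

lemma util_c_le {V N : Type} [Fintype N] (G : SimpleGraph V) (τ : N → Fin 3) (c : N)
    (hc : ∀ j, τ j = τ c → j = c) (v : N → V) (i : N) (hi : i ≠ c) (w : V)
    (hu : util G τ v i < util G τ (Function.update v i w) i) :
    util G τ v c ≤ util G τ (Function.update v i w) c := by
  unfold util
  apply Set.ncard_le_ncard
  · rintro t ⟨h1, j, rfl, h2⟩
    refine ⟨h1, j, rfl, ?_⟩
    rw [Function.update_of_ne hi.symm]
    by_cases hj : j = i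
    · subst hj
      have h3 := util_ne G τ c hc v j hi
      have h4 := util_ne G τ c hc (Function.update v j w) j hi
      rw [ownU2 G c v j hi, if_pos h2.symm] at h3
      rw [ownU2 G c _ j hi] at h4
      rw [Function.update_self, Function.update_of_ne hi.symm] at h4
      rw [Function.update_self]
      by_contra hcon
      rw [if_neg (fun h => hcon h.symm)] at h4
      split_ifs at h3 h4 <;> omega
    · rw [Function.update_of_ne hj]
      exact h2
  · exact Set.toFinite _

lemma lex_up {V N : Type} [Fintype N] (G : SimpleGraph V) (τ : N → Fin 3) (c : N)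
    (hc : ∀ j, τ j = τ c → j = c) (v v' : N → V) (h : ImprovingJump G τ v v') :
    util G τ v c < util G τ v' c ∨ (util G τ v c = util G τ v' c ∧
      (tot G (U2 c) v < tot G (U2 c) v' ∨
        (tot G (U2 c) v = tot G (U2 c) v' ∧ tot G (U3 τ c) v < tot G (U3 τ c) v'))) := by
  obtain ⟨i, w, _, rfl, hu⟩ := h
  by_cases hi : i = c
  · left
    rw [hi] at hu ⊢
    exact hu
  · have hle := util_c_le G τ c hc v i hi w hu
    rcases Nat.lt_or_eq_of_le hle with h | h
    · exact Or.inl h
    · right
      refine ⟨h, ?_⟩
      have s1 : ∀ j l, U2 c j l = U2 c l j := by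
        intro j l
        unfold U2
        congr 1
        apply propext
        tauto
      have s2 : ∀ j l, U3 τ c j l = U3 τ c l j := by
        intro j l
        unfold U3
        congr 1
        apply propext
        constructor
        · rintro ⟨⟨h1, h2⟩, h3⟩
          exact ⟨⟨h2, h1⟩, h3.symm⟩
        · rintro ⟨⟨h1, h2⟩, h3⟩
          exact ⟨⟨h2, h1⟩, h3.symm⟩
      have e1 := tot_jump G (U2 c) s1 v i w
      have e2 := tot_jump G (U3 τ c) s2 v i w
      rw [util_ne G τ c hc v i hi, util_ne G τ c hc _ i hi] at hu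
      have b1 : own G (U2 c) v i ≤ 1 := by
        rw [ownU2 G c v i hi]
        split_ifs <;> omega
      have b2 : own G (U2 c) (Function.update v i w) i ≤ 1 := by
        rw [ownU2 G c _ i hi]
        split_ifs <;> omega
      split_ifs at hu <;> omega

/-- No infinite sequence of improving jumps. -/
theorem no_infinite {V N : Type} [Fintype V] [Fintype N] (G : SimpleGraph V)
    (τ : N → Fin 3) (c : N) (hc : ∀ j, τ j = τ c → j = c) :
    ¬ ∃ v : ℕ → N → V, ∀ n, ImprovingJump G τ (v n) (v (n + 1)) := by
  rintro ⟨v, hv⟩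
  obtain ⟨a, b, hab, heq⟩ := Finite.exists_ne_map_eq_of_infinite v
  have key : ∀ m n, m < n →
      (util G τ (v m) c < util G τ (v n) c ∨ (util G τ (v m) c = util G τ (v n) c ∧
      (tot G (U2 c) (v m) < tot G (U2 c) (v n) ∨
        (tot G (U2 c) (v m) = tot G (U2 c) (v n) ∧
          tot G (U3 τ c) (v m) < tot G (U3 τ c) (v n))))) := by
    intro m n hmn
    induction n with
    | zero => omega
    | succ n ih =>
      have s := lex_up G τ c hc _ _ (hv n)
      rcases Nat.lt_succ_iff_lt_or_eq.1 hmn with h | h
      · have := ih h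
        omega
      · rw [h]
        exact s
  rcases lt_or_gt_of_ne hab with h | h
  · have := key a b h
    rw [heq] at this
    omega
  · have := key b a h
    rw [heq] at this
    omega

/-- Three types, one of them with a single agent `c`: every variety-seeking jump game has an
equilibrium, and moreover every sequence of improving jumps is finite. -/
theorem result : ∀ (V N : Type) [Fintype V] [Fintype N] (G : SimpleGraph V)
    (τ : N → Fin 3) (c : N), Fintype.card N < Fintype.card V →
    (∀ j, τ j = τ c → j = c) →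
    (∃ v : N → V, Function.Injective v ∧ ∀ v' : N → V, ¬ ImprovingJump G τ v v') ∧
    ¬ ∃ v : ℕ → N → V, Function.Injective (v 0) ∧ ∀ n, ImprovingJump G τ (v n) (v (n + 1)) := by
  intro V N _ _ G τ c hcard hs
  refine ⟨?_, ?_⟩
  · by_contra hno
    push Not at hno
    have hstep : ∀ v : {v : N → V // Function.Injective v},
        ∃ v' : {v : N → V // Function.Injective v}, ImprovingJump G τ v.1 v'.1 := by
      rintro ⟨v, hv⟩
      obtain ⟨v', hv'⟩ := hno v hv
      refine ⟨⟨v', ?_⟩, hv'⟩
      obtain ⟨i, w, hw, rfl, _⟩ := hv'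
      intro a b hab
      by_cases ha : a = i <;> by_cases hb : b = i
      · rw [ha, hb]
      · subst ha
        rw [Function.update_self, Function.update_of_ne hb] at hab
        exact absurd hab.symm (hw b)
      · subst hb
        rw [Function.update_self, Function.update_of_ne ha] at hab
        exact absurd hab (hw a)
      · rw [Function.update_of_ne ha, Function.update_of_ne hb] at hab
        exact hv hab
    choose f hf using hstep
    obtain ⟨e⟩ : Nonempty (N ↪ V) := Function.Embedding.nonempty_of_card_le hcard.le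
    let s : ℕ → {v : N → V // Function.Injective v} := fun n => f^[n] ⟨e, e.injective⟩
    apply no_infinite G τ c hs
    refine ⟨fun n => (s n).1, fun n => ?_⟩
    have : s (n + 1) = f (s n) := by
      simp only [s]
      rw [Function.iterate_succ_apply']
    change ImprovingJump G τ (s n).1 (s (n + 1)).1
    rw [this]
    exact hf (s n)
  · rintro ⟨v, _, hv⟩
    exact no_infinite G τ c hs ⟨v, hv⟩

end Pool.Agent.Results.MP_1e742c_lc.ThreeTypes
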